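import Pool.Agent.LSG.StmtsA

/-!
# Squad NPX (MP_005a41_gt): dense subgroups of compact abelian groups which are not l-stable

THEOREM.  Let `K` be an infinite complete metrizable abelian topological group.  Then `K` is compact iff it has
a dense subgroup which is not l-stable.

Everything is written multiplicatively.  For a subgroup `G` of `K` and `p : ℕ` the space `G × Fin p` is the sum of
`p` copies of `G`.

IDEA.  `G` is constructed by transfinite induction such that a measurable map which maps a part of `G` to `G` is,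
almost everywhere with respect to every Haar measure of a group of `k`-th powers, of the form
`y ↦ y ^ j * s`, `s` in a countable set (`Big`).  So the supports of an isomorphism `T : C_p(G × Fin p) → C_p(G × Fin q)` and of its
inverse at the points of `S x^ℤ` (`x` generic, `S` a countable subgroup) are in `S x^ℤ`, and both maps are TRIANGULAR for
the filtration top part = the elements `x ^ u * s` with `u` invertible modulo the exponent.  On the top part a
Foelner argument gives `q ≤ p`.  (A map with dense range does not suffice: `f ↦ (f(x^2), f(x^2 s))`.)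
-/

set_option autoImplicit false

open MeasureTheory Set Topology Pointwise

namespace Pool.Agent.NPX

open Pool.Agent.LSG

section Defs

variable (K : Type) [CommGroup K] [TopologicalSpace K] [IsTopologicalGroup K] [CompactSpace K]
  [MeasurableSpace K] [BorelSpace K]

/-- Haar measure of the compact group `K`, with total mass one -/
noncomputable def mu : Measure K := Measure.haarMeasure ⊤

/-- the Haar measure of the group of the `k`-th powers, as a measure on `K` -/
noncomputable def mk (k : ℤ) : Measure K := (mu K).map fun x => x ^ k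

end Defs

/-- there are infinitely many `k`-th powers -/
def Inf (K : Type) [CommGroup K] (k : ℤ) : Prop := (Set.range fun x : K => x ^ k).Infinite

/-- `u` is invertible modulo the (essential) exponent of `K` -/
def Un (K : Type) [CommGroup K] (u : ℤ) : Prop := ∃ v : ℤ, ¬ Inf K (u * v - 1)

/-- the properties of the group `G` -/
structure Big {K : Type} [CommGroup K] [TopologicalSpace K] [IsTopologicalGroup K] [CompactSpace K]
    [MeasurableSpace K] [BorelSpace K] (G : Subgroup K) : Prop where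
  fin : ∀ k : ℤ, ¬ Inf K k → ∀ x : K, x ^ k ∈ G
  full : ∀ k : ℤ, Inf K k → ∀ E : Set K, MeasurableSet E → 0 < mk K k E → ∃ x ∈ G, x ∈ E
  star : ∀ k : ℤ, Inf K k → ∀ (E : Set K) (φ : K → K), MeasurableSet E → Measurable φ →
    (∀ x ∈ G, x ∈ E → φ x ∈ G) →
    ∃ S : Set K, S.Countable ∧ S ⊆ G ∧ mk K k {x | x ∈ E ∧ ∀ j : ℤ, φ x * (x ^ j)⁻¹ ∉ S} = 0

section Defs2

variable {K : Type} [CommGroup K] [TopologicalSpace K] [IsTopologicalGroup K] [CompactSpace K]
  [MeasurableSpace K] [BorelSpace K] {G : Subgroup K} {p q : ℕ}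

/-- `S1` controls the supports over `S0`: the supports of points of `S0`, and the supports of `x ^ k * s` for almost
all `x`, all `s` in `S0`, all `k` with infinitely many `k`-th powers -/
def Sp (c : G × Fin q → (G × Fin p) →₀ ℝ) (S0 S1 : Set K) : Prop :=
  (∀ (y : G) (i : Fin q) (a : G × Fin p), (y : K) ∈ S0 → c (y, i) a ≠ 0 → (a.1 : K) ∈ S1) ∧
  ∀ k : ℤ, Inf K k → ∀ s ∈ S0, ∀ᵐ x ∂(mu K), ∀ (y : G) (i : Fin q) (a : G × Fin p),
    (y : K) = x ^ k * s → c (y, i) a ≠ 0 → ∃ j : ℤ, (a.1 : K) * ((y : K) ^ j)⁻¹ ∈ S1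

/-- `x` is generic for `c` and the subgroup `S` -/
structure Gn (c : G × Fin q → (G × Fin p) →₀ ℝ) (S : Subgroup K) (x : K) : Prop where
  pow : ∀ j : ℤ, Inf K j → x ^ j ∉ S
  sup : ∀ k : ℤ, Inf K k → ∀ s ∈ S, ∀ (y : G) (i : Fin q) (a : G × Fin p),
    (y : K) = x ^ k * s → c (y, i) a ≠ 0 → ∃ j : ℤ, (a.1 : K) * ((y : K) ^ j)⁻¹ ∈ S

/-- the top part of `S x^ℤ` -/
def Tp (S : Subgroup K) (x : K) : Set K := {y | ∃ u : ℤ, Un K u ∧ ∃ s ∈ S, y = x ^ u * s}

end Defs2

/-! ## Block 1: powers and measures -/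

/-- **PWR** (easy-medium).  Arithmetic of the exponents.
PROOF. `I = {k | ¬ Inf K k}`.  `x ^ 0 = 1`; `x ^ 1 = x` and `K` is infinite.  The set of the `x ^ (a + b)` is contained in the product set of the
`x ^ a` and the `x ^ b`; the `x ^ (a b)` are the `b`-th powers of the `x ^ a`.  So `I` is an ideal of `ℤ` and `1 ∉ I`.  Units:
`(u u') (v v') - 1 = (u v - 1) u' v' + (u' v' - 1)`; `(u u') v - 1 = u (u' v) - 1`; `u' v - 1 = (u v - 1) - (u - u') v`; if `u ∈ I` and `u v - 1 ∈ I` then `1 ∈ I`.
The last clause: `I = m ℤ`, `m ≥ 0` (`Int.subgroup_cyclic`, or `Submodule.IsPrincipal`).  `m = 0`: `u v = 1`, so `u = 1` or `u = -1`: `V = {1, -1}`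
(if `2 ∈ I` were true, `m` would not be `0`).  `m > 0`: `V` = the set of the `u ∈ [0, m)` with `Un u`. -/
def PwrStmt : Prop := ∀ (K : Type) [CommGroup K] [Infinite K],
  ¬ Inf K 0 ∧ Inf K 1 ∧ (∀ a b, ¬ Inf K a → ¬ Inf K b → ¬ Inf K (a + b)) ∧
  (∀ a b, ¬ Inf K a → ¬ Inf K (a * b)) ∧ (∀ u, Un K u → Inf K u) ∧ ¬ Un K 0 ∧ Un K 1 ∧
  (∀ u u', Un K u → Un K u' → Un K (u * u')) ∧ (∀ u u', Un K (u * u') → Un K u) ∧
  (∀ u u', Un K u → ¬ Inf K (u - u') → Un K u') ∧
  ∃ V : Finset ℤ, V.Nonempty ∧ (∀ v ∈ V, Un K v) ∧ (∀ v ∈ V, ∀ v' ∈ V, v ≠ v' → Inf K (v - v')) ∧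
    ∀ u, Un K u → ∃ v ∈ V, ¬ Inf K (u - v)

/-- **MUP** (easy-medium; uses nothing).  The measures (compare `MukStmt` of LSG).
PROOF. `mu` is a Haar measure of the compact group `K` with `mu univ = 1` (`haarMeasure_self`), it charges open sets.  `x ↦ x ^ k` is continuous, so
`mk K k` is a probability measure.  Null fibres: `{y | y ^ j = z}` has `mk K k`-measure `mu {x | x ^ (k j) = z}`; this set is empty or a coset of the
closed subgroup `N = {x | x ^ (k j) = 1}`; `K / N` is in bijection with the infinite set of the `(k j)`-th powers, so there are infinitely many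
disjoint translates of `N` with the same measure and total measure `≤ 1`: `mu N = 0`.  Inner regularity: finite Borel measures on compact metrizable spaces are
regular (`MeasurableSet.exists_lt_isCompact`).  The powers: the image of `K` is compact, so closed, and `mk K k` of its complement is `0`. -/
def MupStmt : Prop := ∀ (K : Type) [CommGroup K] [TopologicalSpace K] [IsTopologicalGroup K]
  [CompactSpace K] [TopologicalSpace.MetrizableSpace K] [MeasurableSpace K] [BorelSpace K]
  [Infinite K], IsProbabilityMeasure (mu K) ∧ (mu K).IsHaarMeasure ∧ mk K 1 = mu K ∧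
  (∀ k : ℤ, IsProbabilityMeasure (mk K k)) ∧
  (∀ k j : ℤ, Inf K (k * j) → ∀ z : K, mk K k {y | y ^ j = z} = 0) ∧
  (∀ (k : ℤ) (E : Set K), MeasurableSet E → 0 < mk K k E → ∃ C, C ⊆ E ∧ IsCompact C ∧ 0 < mk K k C) ∧
  ∀ k : ℤ, MeasurableSet (Set.range fun x : K => x ^ k) ∧
    mk K k (Set.range fun x : K => x ^ k)ᶜ = 0

/-- **UAC** (medium; uses MUP).  Bounded density for units.
PROOF. `Un K u`: `x ^ (u v) = x * t`, `t ∈ R` = the finite set of the `(u v - 1)`-th powers.  So `K = K^u R'` (`x = (x ^ v) ^ u * t⁻¹`): the subgroup `K^u` of the `u`-th powers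
has finite index; let `R'` be a set of representatives of its cosets, `1 ∈ R'`.  `ν E = ∑ r ∈ R', mk K u {y | r * y ∈ E}` is a measure of mass `#R'`, invariant under `K`: `mk K u` is invariant under `K^u`
(`z = w ^ u`: `y ^ u * z = (y w) ^ u`), so `E ↦ mk K u {y | r * y ∈ E}` only depends on the coset of `r`, and a translation permutes the cosets.  By uniqueness of
Haar measure (`Measure.isMulInvariant_eq_smul_of_compactSpace`) `ν = #R' • mu`, and `mk K u ≤ ν` (term `r = 1`). -/
def UacStmt : Prop := ∀ (K : Type) [CommGroup K] [TopologicalSpace K] [IsTopologicalGroup K]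
  [CompactSpace K] [TopologicalSpace.MetrizableSpace K] [MeasurableSpace K] [BorelSpace K]
  [Infinite K] (u : ℤ), Un K u → ∃ C : ℕ, ∀ E : Set K, MeasurableSet E →
    mk K u E ≤ C * mu K E

/-- **MYN** (medium-strong; uses nothing; compare `SplStmt`, `MycStmt` of LSG).  A Cantor set on which countably many maps are finite-to-one.
PROOF. SPLITTING: if `ν F > 0` and the fibres of `ψ` are null on `F` there is a measurable `D` such that `F ∩ ψ⁻¹ D` and `F \ ψ⁻¹ D` have positive measure: otherwise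
for every member `B` of a countable base of `K` one of the two sets is null; the points `x` of `F` outside of these countably many null sets all have the same
image (two different points of `K` are separated by a member `B` of the base), so `F` is contained in a fibre and a null set.
STEP: for `F` of positive measure and `l : ℕ` there are compact `F0, F1 ⊆ F` of positive measure such that `φ i '' F0`, `φ i '' F1` are disjoint for all `i ≤ l`.  Start with
a splitting `A0, A1` for `φ 0`; for `i = 1, ..., l`: split `A0` by `φ i` and `D`; one of `A1 ∩ φ i⁻¹ D`, `A1 \ φ i⁻¹ D` is positive: replace `A1` by it and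
`A0` by the part of the other kind.  Finally take compact subsets (regularity of finite Borel measures).
By recursion: compact `F_s`, `s` a finite 0-1-sequence, `F_(s0), F_(s1)` from STEP for `F_s` and `l` = the length of `s`.  `P σ` = a point of the intersection of the `F_(σ|n)`.  If `σ ≠ τ` have the
same first `n` values then they split at a level `l ≥ n` and `φ n (P σ) ≠ φ n (P τ)`.  So every value of `φ n ∘ P` is taken at most `2 ^ n` times. -/
def MynStmt : Prop := ∀ (K : Type) [TopologicalSpace K] [CompactSpace K]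
  [TopologicalSpace.MetrizableSpace K] [MeasurableSpace K] [BorelSpace K] (ν : Measure K)
  [IsFiniteMeasure ν] (E : Set K) (φ : ℕ → K → K), MeasurableSet E → (∀ n, Measurable (φ n)) →
  0 < ν E → (∀ n y, ν (E ∩ φ n ⁻¹' {y}) = 0) →
  ∃ P : (ℕ → Bool) → K, (∀ σ, P σ ∈ E) ∧ ∀ n y, {σ | φ n (P σ) = y}.Finite

/-- **TRN** (STRONG; no measure, no topology; compare `TraStmt` of LSG and its proof).  The transfinite construction.
`b i` says that there is a condition on `φ i`.
PROOF. Well-order `I` so that every initial segment has cardinality less than the continuum `𝔠`.  Choose `x i` by recursion: `G_i = closure (G0 ∪ {x j | j < i})` and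
`Y_i = {φ j (x j) | j < i, b j}`; both have cardinality `< 𝔠` (`G0` is countable).  Each of the following conditions excludes fewer than `𝔠` many `σ` (the exceptional sets for given `t : ℤ`, `g`,
`y` are finite, and there are fewer than `𝔠` many `(t, g, y)`), and there are `𝔠` many `σ`, so there is a `σ` with: (a) for every `t : ℤ` such that not all `(P i σ') ^ t` are
in `G0`: `(P i σ) ^ t * g ≠ y` for all `g ∈ G_i`, `y ∈ Y_i`; (b) if `b i`: `φ i (P i σ) * ((P i σ) ^ t)⁻¹ ∉ G_i` for all `t`.  Put `x i = P i σ`.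
CLAIM: `φ j (x j) ∉ closure (G0 ∪ {x l | l ≤ i})` for `j ≤ i`, `b j`.  Induction on `i`.  An element of this closure is `g * x i ^ t`, `g ∈ G_i`, `t : ℤ` (commutative).  Let
`z = φ j (x j) = g * x i ^ t`.  `j = i`: against (b).  `j < i`: if the `t`-th powers of `P i` are in `G0` then `z ∈ G_i`, so `z` is in the closure of `G0` and finitely many `x l`, `l < i`, against the
induction hypothesis; otherwise against (a).  `G = closure (G0 ∪ {x i})`. -/
def TrnStmt : Prop := ∀ (K : Type) [CommGroup K] (I : Type) (b : I → Prop)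
  (P : I → (ℕ → Bool) → K) (φ : I → K → K) (G0 : Subgroup K), (G0 : Set K).Countable →
  Cardinal.mk I ≤ Cardinal.continuum →
  (∀ i (t : ℤ), (∀ σ, (P i σ) ^ t ∈ G0) ∨ ∀ y, {σ | (P i σ) ^ t = y}.Finite) →
  (∀ i, b i → ∀ (t : ℤ) y, {σ | φ i (P i σ) * ((P i σ) ^ t)⁻¹ = y}.Finite) →
  ∃ G : Subgroup K, G0 ≤ G ∧ ∀ i, ∃ σ, P i σ ∈ G ∧ (b i → φ i (P i σ) ∉ G)

/-- **CRN** (easy-medium; compare `CrdStmt`, its proof in LSG).  Few measurable sets and maps.
PROOF. The σ-algebra of `K` is countably generated (`K` is second countable), so there are at most `𝔠` measurable sets; a measurable map is determined by the preimages of the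
members of a countable base: at most `𝔠 ^ ℵ₀ = 𝔠` maps. -/
def CrnStmt : Prop := ∀ (K : Type) [TopologicalSpace K] [CompactSpace K]
  [TopologicalSpace.MetrizableSpace K] [MeasurableSpace K] [BorelSpace K],
  Cardinal.mk (ℤ × Bool × {p : Set K × (K → K) // MeasurableSet p.1 ∧ Measurable p.2}) ≤
    Cardinal.continuum

/-- **CNN** (medium; uses PWR MUP MYN TRN CRN).  The group.
PROOF. `R` = the union of the sets of the `k`-th powers over all `k` with `¬ Inf K k`: countable.  `G0 = closure R`: countable.  Let `I` be the type of all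
`(k, β, E, φ)` of CRN with `Inf K k` for which there is `P : (ℕ → Bool) → K` with values in `E ∩ {k-th powers}` such that `{σ | (P σ) ^ t = y}` is finite for all `y` and all `t` with `Inf K (k t)`
and, if `β` is true, `{σ | φ (P σ) * ((P σ) ^ t)⁻¹ = y}` is finite for all `t`, `y`; choose such a `P`.  If `¬ Inf K (k t)`, `(P σ) ^ t` is a `(k t)`-th power, so in `R`.  TRN (`b` = `β` is true) gives `G`.
`fin`: `R ⊆ G0 ≤ G`.  `full`: MYN for `ν = mk K k`, `E ∩ {k-th powers}` (same measure: MUP) and the maps `y ↦ y ^ t`, `Inf K (k t)` (fibres null: MUP; enumerate `ℤ`, use `t = 1` in place of the `t` with `¬ Inf K (k t)`) gives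
a member `(k, false, E, id)` of `I`.
`star`: for `t : ℤ` the set `S_t` of the `s` with `0 < mk K k {x ∈ E | φ x * (x ^ t)⁻¹ = s}` is countable (disjoint sets in a finite measure space); `full` gives `x ∈ G ∩ E` with
`φ x * (x ^ t)⁻¹ = s`, so `s ∈ G`.  `S` = the union of the `S_t`, `E' = {x ∈ E | ∀ t, φ x * (x ^ t)⁻¹ ∉ S}`.  If `0 < mk K k E'`: MYN for `E' ∩ {k-th powers}` and the maps `y ↦ y ^ t` (`Inf K (k t)`) and
`y ↦ φ y * (y ^ t)⁻¹` (null fibres on `E'`: for `s ∈ S` empty, otherwise null because `s ∉ S_t`) gives the member `(k, true, E', φ)` of `I`: some `x ∈ G ∩ E'` has `φ x ∉ G`, against the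
hypothesis.  Dense: nonempty open sets have positive measure, `full` for `k = 1`. -/
def CnnStmt : Prop := ∀ (K : Type) [CommGroup K] [TopologicalSpace K] [IsTopologicalGroup K]
  [CompactSpace K] [TopologicalSpace.MetrizableSpace K] [MeasurableSpace K] [BorelSpace K]
  [Infinite K], ∃ G : Subgroup K, Big G ∧ Dense (G : Set K)

/-! ## Block 2: supports -/

/-- **LSC** (easy-medium).  Supports are lower semicontinuous.
PROOF. Let `c y₀ a₀ ≠ 0`, `a₀ ∈ O`.  There is `f : C(X, ℝ)` with `f a₀ = 1`, `f = 0` outside of `O` and at the other points of the (finite) support of `c y₀` (Urysohn).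
`T f y₀ = c y₀ a₀ ≠ 0`, so `T f y ≠ 0` for all `y` near `y₀`, and then some `a` has `c y a ≠ 0` and `f a ≠ 0`, so `a ∈ O`. -/
def LscStmt : Prop := ∀ (X Y : Type) [TopologicalSpace X] [TopologicalSpace Y]
  [TopologicalSpace.MetrizableSpace X] (T : C(X, ℝ) →ₗ[ℝ] C(Y, ℝ)) (c : Y → X →₀ ℝ), Rep T c →
  ∀ O : Set X, IsOpen O → IsOpen {y | ∃ a ∈ O, c y a ≠ 0}

/-- **PHN** (medium; uses LSC).  The points of the supports as countably many measurable functions.
PROOF. Let `𝓑` be a countable base of `X = G × Fin p` (second countable), `Z O = {y | ∃ a ∈ O, c y a ≠ 0}` (open).  `Only O = Z O \ ⋃ (Z O1 ∩ Z O2)` over all disjoint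
`O1, O2 ∈ 𝓑` contained in `O`: a Borel set, `y ∈ Only O` iff exactly one point `ψ O y` of the support of `c y` is in `O`.  For `W` open in `G`: `{y ∈ Only O | (ψ O y).1 ∈ W} = Only O ∩ Z (O ∩ (W ×ˢ univ))` is Borel.
So `(ψ O y).1`, with the value `1` outside of `Only O`, is a measurable function of `y`; restrict to the slice `i`: a measurable function `G → K`, where `G` has the σ-algebra induced by `K`
(`borel_comap`).  `Measurable.exists_eq_measurable_comp` (Doob-Dynkin) extends it to a measurable `φ : K → K`, and the trace of `Only O` on the slice is the trace of a measurable `E ⊆ K`.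
Every point of a (finite) support is the only one in some `O ∈ 𝓑`. -/
def PhnStmt : Prop := ∀ (K : Type) [CommGroup K] [TopologicalSpace K] [IsTopologicalGroup K]
  [CompactSpace K] [TopologicalSpace.MetrizableSpace K] [MeasurableSpace K] [BorelSpace K]
  (G : Subgroup K) (p q : ℕ) (T : C(G × Fin p, ℝ) →ₗ[ℝ] C(G × Fin q, ℝ))
  (c : G × Fin q → (G × Fin p) →₀ ℝ), Rep T c → ∀ i : Fin q,
  ∃ (E : ℕ → Set K) (φ : ℕ → K → K), (∀ n, MeasurableSet (E n) ∧ Measurable (φ n)) ∧
    ∀ (x : G) (z : K), (∃ a : G × Fin p, c (x, i) a ≠ 0 ∧ (a.1 : K) = z) ↔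
      ∃ n, (x : K) ∈ E n ∧ φ n x = z

/-- **SPA** (medium; uses PHN).  Control of the supports over a countable set.
PROOF. For `s ∈ S0`, `k`, `i`, `n` let `E`, `φ` be the `n`-th set and map of PHN for `i`.  Apply `Big.star` to `k`, `E' = {z | z * s ∈ E}`, `φ' z = φ (z * s)`: for `z ∈ G ∩ E'` also `z * s ∈ G ∩ E`,
and `φ (z * s)` is a first coordinate of a point of `G × Fin p`.  It gives a countable `S' ⊆ G`; for almost all `x` (definition of `mk`, `z = x ^ k`): if `x ^ k * s ∈ E` there is `j` with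
`φ (z * s) * (z ^ j)⁻¹ ∈ S'`, so `φ (z * s) * ((z * s) ^ j)⁻¹ ∈ S' * s^ℤ`.  `S1` = the union of all these countably many countable sets `S' * s^ℤ` and of the first coordinates of the supports of the `(y, i)`, `y ∈ S0`. -/
def SpaStmt : Prop := ∀ (K : Type) [CommGroup K] [TopologicalSpace K] [IsTopologicalGroup K]
  [CompactSpace K] [TopologicalSpace.MetrizableSpace K] [MeasurableSpace K] [BorelSpace K]
  [Infinite K] (G : Subgroup K), Big G → ∀ (p q : ℕ) (T : C(G × Fin p, ℝ) →ₗ[ℝ] C(G × Fin q, ℝ))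
  (c : G × Fin q → (G × Fin p) →₀ ℝ), Rep T c → ∀ S0 : Set K, S0.Countable → S0 ⊆ G →
  ∃ S1 : Set K, S1.Countable ∧ S1 ⊆ G ∧ Sp c S0 S1

/-- **SPB** (medium; uses PWR SPA).  A countable subgroup which controls both supports.
PROOF. `S_0` = the set of all `k`-th powers, `¬ Inf K k` (countable, in `G` by `Big.fin`); `S_(n+1)` = the subgroup generated by `S_n` and by the sets `S1` of SPA for `c`, `S_n` and for `d`, `S_n`; `S` = the union of the
increasing sequence of countable subgroups `S_(n+1)`.  Every `s ∈ S` is in some `S_n`, and `Sp c S_n S_(n+1)` gives the clauses for `s` (monotone in the second set). -/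
def SpbStmt : Prop := ∀ (K : Type) [CommGroup K] [TopologicalSpace K] [IsTopologicalGroup K]
  [CompactSpace K] [TopologicalSpace.MetrizableSpace K] [MeasurableSpace K] [BorelSpace K]
  [Infinite K] (G : Subgroup K), Big G → ∀ (p q : ℕ) (T : C(G × Fin p, ℝ) →ₗ[ℝ] C(G × Fin q, ℝ))
  (c : G × Fin q → (G × Fin p) →₀ ℝ) (U : C(G × Fin q, ℝ) →ₗ[ℝ] C(G × Fin p, ℝ))
  (d : G × Fin p → (G × Fin q) →₀ ℝ), Rep T c → Rep U d →
  ∃ S : Subgroup K, (S : Set K).Countable ∧ S ≤ G ∧ (∀ k : ℤ, ¬ Inf K k → ∀ x : K, x ^ k ∈ S) ∧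
    Sp c (S : Set K) (S : Set K) ∧ Sp d (S : Set K) (S : Set K)

/-- **GNR** (easy-medium; uses MUP).  Almost all points are generic.
PROOF. `pow`: `{x | x ^ j ∈ S}` is a countable union of fibres of `x ↦ x ^ j`, null by MUP (`k = 1`).  `sup`: the second clause of `Sp` for the countably many `k`, `s`. -/
def GnrStmt : Prop := ∀ (K : Type) [CommGroup K] [TopologicalSpace K] [IsTopologicalGroup K]
  [CompactSpace K] [TopologicalSpace.MetrizableSpace K] [MeasurableSpace K] [BorelSpace K]
  [Infinite K] (G : Subgroup K) (p q : ℕ) (c : G × Fin q → (G × Fin p) →₀ ℝ) (S : Subgroup K),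
  (S : Set K).Countable → Sp c (S : Set K) (S : Set K) → ∀ᵐ x ∂(mu K), Gn c S x

/-- **TRI** (medium-strong; uses PWR).  THE TRIANGULAR ARGUMENT (pure algebra).
PROOF. (1) `T (U g) = g` and `Rep` give, for every `y`: the combination `∑ a, c y a • d a` is `single y 1` (test against functions which separate the finitely many points involved: `G × Fin q` is
metrizable).  So with the linear maps `C`, `D` (`C (single y 1) = c y`, `D (single a 1) = d a`, `Finsupp.linearCombination`) `D (C v) = v`.
(2) Let `W = {x ^ k * s | k : ℤ, s ∈ S}`, `Low = W \ Tp`.  If `x ^ k * s ∈ Tp` then `Un K k`: `x ^ k * s = x ^ u * s'`, `x ^ (k - u) ∈ S`, so `¬ Inf K (k - u)` (`Gn.pow`) and `Un K k` by PWR.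
(3) `y ∈ Tp`, `y = x ^ u * s`, `Inf K u` (PWR): the support of `c (y, i)` is over `W` (`Gn.sup`: `a.1 = y ^ j * s'`).
(4) `y ∈ Low`, `y = x ^ k * s`, `¬ Un K k`: the support of `d (y, i)` is over `Low`: if `Inf K k`, `a.1 = y ^ j * s' = x ^ (k j) * s''`, and `Un K (k j)` would give `Un K k`; with (2) `a.1 ∉ Tp`.  If `¬ Inf K k`, `x ^ k ∈ S`, so
`y ∈ S`, the support is over `S`, and `s = x ^ 0 * s ∉ Tp` by (2) and `¬ Un K 0`.
(5) Let `v` be a combination of the `single b 1`, `b` over `Tp`, with `(C v)` restricted to `Tp` equal to `0`.  By (3) `C v` is supported over `Low`, by (4) so is `v = D (C v)`; `v` is supported over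
`Tp`, so `v = 0`. -/
def TriStmt : Prop := ∀ (K : Type) [CommGroup K] [TopologicalSpace K] [IsTopologicalGroup K]
  [CompactSpace K] [TopologicalSpace.MetrizableSpace K] [MeasurableSpace K] [BorelSpace K]
  [Infinite K] (G S : Subgroup K) (p q : ℕ) (T : C(G × Fin p, ℝ) →ₗ[ℝ] C(G × Fin q, ℝ))
  (c : G × Fin q → (G × Fin p) →₀ ℝ) (U : C(G × Fin q, ℝ) →ₗ[ℝ] C(G × Fin p, ℝ))
  (d : G × Fin p → (G × Fin q) →₀ ℝ) (x : K), Rep T c → Rep U d → (∀ g, T (U g) = g) → S ≤ G →
  x ∈ G → (∀ k : ℤ, ¬ Inf K k → ∀ x : K, x ^ k ∈ S) →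
  (∀ (y : G) (i : Fin p) (a : G × Fin q), (y : K) ∈ S → d (y, i) a ≠ 0 → (a.1 : K) ∈ S) →
  Gn c S x → Gn d S x → ∀ [DecidablePred fun a : G × Fin p => (a.1 : K) ∈ Tp S x],
  LinearIndependent ℝ (fun b : {b : G × Fin q // (b.1 : K) ∈ Tp S x} =>
    (c b.1).filter fun a => (a.1 : K) ∈ Tp S x)

/-! ## Block 3: counting -/

/-- **EXN** (medium; uses MUP PHN).  Exhaustion.
PROOF. Let `S = ⋃ H_r`, `H_r` finite, increasing, `E_n^i`, `φ_n^i` from PHN.  `M_r = {x | ∀ i n, x ∈ E_n^i → ∃ j, |j| ≤ r, φ_n^i x * (x ^ j)⁻¹ ∈ H_r}`: measurable, increasing, and by PHN `x ∈ G ∩ M_r` has the wanted property.  By `Sp`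
(`k = 1`, `s = 1`) almost all `x ∈ G` (all outside of a null set `N`, which may be taken measurable) are in some `M_r` (the supports are finite).  So the measurable set `(N ∪ ⋃ M_r)ᶜ` does not meet `G`, it is null by `full`
(`k = 1`), and `mu (M_r) → 1`. -/
def ExnStmt : Prop := ∀ (K : Type) [CommGroup K] [TopologicalSpace K] [IsTopologicalGroup K]
  [CompactSpace K] [TopologicalSpace.MetrizableSpace K] [MeasurableSpace K] [BorelSpace K]
  [Infinite K] (G S : Subgroup K), Big G → ∀ (p q : ℕ)
  (T : C(G × Fin p, ℝ) →ₗ[ℝ] C(G × Fin q, ℝ)) (c : G × Fin q → (G × Fin p) →₀ ℝ), Rep T c →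
  (S : Set K).Countable → Sp c (S : Set K) (S : Set K) → ∀ ε : ENNReal, 0 < ε →
  ∃ (H : Finset K) (n : ℕ) (M : Set K), (∀ h ∈ H, h ∈ S) ∧ MeasurableSet M ∧ mu K Mᶜ ≤ ε ∧
    ∀ (x : G) (i : Fin q) (a : G × Fin p), (x : K) ∈ M → c (x, i) a ≠ 0 →
      ∃ j : ℤ, |j| ≤ n ∧ (a.1 : K) * ((x : K) ^ j)⁻¹ ∈ H

/-- **FOL** (medium; uses PWR).  Foelner sets.  `V` as in the last clause of PWR.
PROOF. Let `I = {k | ¬ Inf K k} = m ℤ`.  Case `m > 0`: every `z ∈ K` has finite order: `z ^ m` is in the finite group of the `m`-th powers.  Let `F = F'` be the (finitely generated, torsion, abelian, so finite)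
subgroup generated by `H` and by all `x ^ (u j - v)`, `u, v ∈ V`, `|j| ≤ n`, `¬ Inf K (u j - v)`, `x ∈ K` (finitely many elements, all in `S`).
Case `m = 0` (`¬ Inf K k` iff `k = 0`): the elements of `V` are invertible integers, so `u j = v` gives `j = 1` or `j = -1` and `x ^ 0 = 1`.  Let `A = H ∪ H⁻¹ ∪ {1}`, `F_r = A ^ r` (product of `r` elements of `A`), symmetric, `#F_r ≤ (r + 1) ^ #A`
(commutative), so there is `r` with `#F_(r+1) ≤ (1 + ε) #F_r` (otherwise exponential growth).  `F = F_r`, `F' = F_(r+1)`. -/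
def FolStmt : Prop := ∀ (K : Type) [CommGroup K] [Infinite K] (S : Subgroup K) (V : Finset ℤ),
  (∀ k : ℤ, ¬ Inf K k → ∀ x : K, x ^ k ∈ S) → (∀ v ∈ V, Un K v) → ∀ (H : Finset K) (n : ℕ) (ε : ℝ),
  (∀ h ∈ H, h ∈ S) → 0 < ε → ∃ F F' : Finset K, F.Nonempty ∧ (∀ s ∈ F, s ∈ S) ∧
    (∀ s ∈ F', s ∈ S) ∧ (F'.card : ℝ) ≤ (1 + ε) * F.card ∧
    ∀ s ∈ F, ∀ h ∈ H, ∀ u ∈ V, ∀ v ∈ V, ∀ j : ℤ, |j| ≤ n → ¬ Inf K (u * j - v) →
      ∀ x : K, s ^ j * h * x ^ (u * j - v) ∈ F'

/-- **AVG** (medium; uses MUP UAC).  Averaging.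
PROOF. `C` = the maximum of the constants of UAC over `u ∈ V`.  `mu {x | x ^ u * s ∉ M} = mk K u {y | y * s ∉ M} ≤ C * mu {y | y * s ∉ M} = C * mu Mᶜ` (invariance).  Let `δ = ε / (2 C + 2)` (positive, finite).  The function
`f x = #{(u, s) ∈ V × F | x ^ u * s ∉ M}` is measurable with integral `≤ #V * #F * C * mu Mᶜ`.  The set `Z` of the `x` with `f x ≤ ε * #V * #F` is measurable, and if it were null then the integral would be `≥ ε #V #F`, which is bigger
(`#V * #F > 0`).  So `0 < mu Z`; `Z ∩ E` with `E` measurable of full measure still has positive measure; `full` with `k = 1`. -/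
def AvgStmt : Prop := ∀ (K : Type) [CommGroup K] [TopologicalSpace K] [IsTopologicalGroup K]
  [CompactSpace K] [TopologicalSpace.MetrizableSpace K] [MeasurableSpace K] [BorelSpace K]
  [Infinite K] (G : Subgroup K), Big G → ∀ V : Finset ℤ, V.Nonempty → (∀ v ∈ V, Un K v) →
  ∀ ε : ℝ, 0 < ε → ε < 1 → ∃ δ : ENNReal, 0 < δ ∧ ∀ (M : Set K) (F : Finset K), MeasurableSet M →
    mu K Mᶜ ≤ δ → F.Nonempty → ∀ Q : K → Prop, (∀ᵐ x ∂(mu K), Q x) → ∃ x ∈ G, Q x ∧
      (1 - ε) * (V.card * F.card) ≤
        Set.ncard {w : ℤ × K | w.1 ∈ V ∧ w.2 ∈ F ∧ x ^ w.1 * w.2 ∈ M}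

/-- **MAN** (medium-strong; uses PWR EXN FOL AVG TRI GNR SPB, and `RpvStmt` of LSG).  The counting.
PROOF. Let `T : C(G × Fin p) ≃ C(G × Fin q)` be as in `LEq`, `U = T.symm`, `c`, `d` from RPV, `S` from SPB, `V` from PWR.  Suppose `p < q`.  Choose `ε ∈ (0, 1)` with `p (1 + ε) < q (1 - ε)`; `δ` from AVG; `H`, `n`, `M` from EXN for `c` and `δ`; `F`, `F'` from
FOL; `x ∈ G` from AVG with `Q x` = (`Gn c S x` and `Gn d S x`) (GNR).  The points `x ^ u * s`, `(u, s) ∈ V × F`, are pairwise different (if `x ^ u * s = x ^ u' * s'` then `x ^ (u - u') ∈ S`, so `¬ Inf K (u - u')`, `u = u'`,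
`s = s'`) and in `Tp S x`.  Let `B` be the set of those in `M`: at least `(1 - ε) #V #F` elements.  By TRI the `q #B` vectors `(c (b, i)) restricted to Tp`, `b ∈ B`, `i : Fin q`, are linearly independent.  Their supports are over
`A = {x ^ v * f | v ∈ V, f ∈ F'}`: let `b = x ^ u * s`, `a` in the support of `c (b, i)`, `a.1 ∈ Tp`: `a.1 = b ^ j * h = x ^ (u j) * s ^ j * h`, `|j| ≤ n`, `h ∈ H`; `Un K (u j)` (as in TRI (2)), so there is `v ∈ V` with `¬ Inf K (u j - v)` and
`a.1 = x ^ v * (s ^ j * h * x ^ (u j - v))`, in `A` by FOL.  So `q (1 - ε) #V #F ≤ p #V #F' ≤ p (1 + ε) #V #F`: contradiction. -/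
def ManStmt : Prop := ∀ (K : Type) [CommGroup K] [TopologicalSpace K] [IsTopologicalGroup K]
  [CompactSpace K] [TopologicalSpace.MetrizableSpace K] [MeasurableSpace K] [BorelSpace K]
  [Infinite K] (G : Subgroup K), Big G → ∀ p q : ℕ, LEq (G × Fin p) (G × Fin q) → q ≤ p

/-- **DNN** (easy-medium).  Dense subgroups of a complete group which is not compact are not precompact.
PROOF. Suppose that for every neighbourhood `U` of `1` in `G` there is a finite `F` with `F U = G`.  Let `W` be a neighbourhood of `1` in `K`, `W1` a closed neighbourhood of `1`, `W1 ⊆ W`: `F (W1 ∩ G) = G`, so the closed set `F W1` contains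
`G`, so it is `K`.  So `K` is totally bounded (`totallyBounded` via the uniformity of the group: the entourages `{(x, y) | y / x ∈ W}` or `x⁻¹ y`; `IsUniformGroup`, commutative), and complete, so compact
(`isCompact_of_totallyBounded_isClosed`, `CompleteSpace`). -/
def DnnStmt : Prop := ∀ (K : Type) [CommGroup K] [UniformSpace K] [IsUniformGroup K]
  [CompleteSpace K] (G : Subgroup K), Dense (G : Set K) → ¬ CompactSpace K →
  ∃ U ∈ nhds (1 : G), ∀ F : Finset G, (⋃ g ∈ F, g • U) ≠ Set.univ

/-- **FNN** (easy-medium; uses CNN MAN DNN and the landed theorem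
`Pool.Agent.Results.MP_005a41_gt.NonPrecompactGroups` (`Pool.Agent.LSG.H18.ab2_`)).  THE THEOREM.
PROOF. If `K` is not compact: DNN and the landed theorem (`H = G`, commutative).  If `K` is compact: `G` from CNN (with the Borel σ-algebra of `K`).  If `G` were l-stable then, with `A = univ` (`LEmb` by the
identity), `G` would be l-equivalent to `G ⊕ univ`, which is homeomorphic to `G × Fin 2`, and `G` is homeomorphic to `G × Fin 1`: `LEq (G × Fin 1) (G × Fin 2)`, against MAN. -/
def FnnStmt : Prop := ∀ (K : Type) [CommGroup K] [UniformSpace K] [IsUniformGroup K]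
  [CompleteSpace K] [TopologicalSpace.MetrizableSpace K] [Infinite K],
  CompactSpace K ↔ ∃ G : Subgroup K, Dense (G : Set K) ∧ ¬ LStable G

end Pool.Agent.NPX
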